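import Pool.Agent.Lib.GV40.All

/-! A Kähler structure on a compact Hermitian symmetric space of type I, II, III, E6 or E7 that is
invariant under the standard maximal torus is the standard one. -/

open scoped Manifold ContDiff

namespace Pool.Agent.Results.MP_0f72d2_ag.TorusAllTypes

open Pool.Agent.Lib Pool.Agent.Lib.GU40 Pool.Agent.Lib.GV40

theorem result (k q d : ℕ) (hk : 0 < k) (hq : 0 < q) (X : Set (GT40.Gr k q)) (hX : Model k q X)
    (Y : Type) [TopologicalSpace Y] [ChartedSpace (Fin d → ℂ) Y]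
    [IsManifold 𝓘(ℂ, Fin d → ℂ) ω Y] (hK : X ≠ Set.univ → ∃ h : Y → HS.Mat d, GH.Kaehler h)
    (Φ : X ≃ₜ Y) (hΦ : Diffeo d Φ) (hT : DiagHol d Φ) : ∃ Ψ : X ≃ₜ Y, Bihol d Ψ :=
  main hk hq X hX Y hK Φ hΦ hT

end Pool.Agent.Results.MP_0f72d2_ag.TorusAllTypes
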